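import Pool.Agent.Lib.MP_8c499d_al.Final

/-!
All subspaces invariant under the automorphism group of a pencil of skew-symmetric forms, in terms
of the Jordan–Kronecker normal form.
-/

set_option autoImplicit false

open Polynomial

namespace Pool.Agent.Results.MP_8c499d_al.InvariantSubspaces

open Pool.Agent.Lib.MP_8c499d_al

/-- The invariant subspaces of a pencil in Jordan–Kronecker normal form are exactly those
described by admissible families `F`, `Z`, `a`; the values of the families for the sizes and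
eigenvalues that occur are determined by the subspace. -/
theorem result {V : Type*} [AddCommGroup V] [Module ℂ V] (A B : V →ₗ[ℂ] V →ₗ[ℂ] ℂ)
    {ι κ : Type} [Fintype ι] [Fintype κ] [DecidableEq ι] [DecidableEq κ]
    (k : ι → ℕ) (n : κ → ℕ) (μ : κ → ℂ) (b : Module.Basis (Idx k n) ℂ V)
    (h : IsJK μ b A B ∨ IsJK μ b B A) :
    (∀ F Z a, Admissible k n μ F Z a → ∃ W, Invariant A B W ∧ Describes b μ F Z a W) ∧
    (∀ W, Invariant A B W → ∃ F Z a, Admissible k n μ F Z a ∧ Describes b μ F Z a W) ∧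
    ∀ W F Z a F' Z' a', Admissible k n μ F Z a → Admissible k n μ F' Z' a' →
      Describes b μ F Z a W → Describes b μ F' Z' a' W →
      (∀ i, F (k i) = F' (k i)) ∧ (∀ i, Z (k i) = Z' (k i)) ∧
        ∀ j, a (μ j) (n j) = a' (μ j) (n j) := by
  have key : ∀ A B : V →ₗ[ℂ] V →ₗ[ℂ] ℂ, IsJK μ b A B →
      (∀ F Z a, Admissible k n μ F Z a → ∃ W, Invariant A B W ∧ Describes b μ F Z a W) ∧
      ∀ W, Invariant A B W → ∃ F Z a, Admissible k n μ F Z a ∧ Describes b μ F Z a W := by
    intro A B h
    refine ⟨fun F Z a hF => ?_, fun W hW => (invariant_iff_jk μ b h W).1 hW⟩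
    have h1 : Describes b μ F Z a ((U (datOf k n μ) F Z a).map (eqv μ b).symm.toLinearMap) := by
      rw [describes_iff, ← Submodule.map_comp]
      have : (eqv μ b).toLinearMap ∘ₗ (eqv μ b).symm.toLinearMap = LinearMap.id :=
        LinearMap.ext fun z => (eqv μ b).apply_symm_apply z
      rw [this, Submodule.map_id]
    exact ⟨_, (invariant_iff_jk μ b h _).2 ⟨F, Z, a, hF, h1⟩, h1⟩
  have hinv : ∀ W, Invariant A B W ↔ Invariant B A W := fun W =>
    forall_congr' fun φ => imp_congr_left isAut_comm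
  refine and_assoc.1 ⟨?_, fun W F Z a F' Z' a' h1 h2 h3 h4 =>
    describes_unique μ b h1 h2 h3 h4⟩
  rcases h with h | h
  · exact key A B h
  · obtain ⟨h1, h2⟩ := key B A h
    refine ⟨fun F Z a hF => ?_, fun W hW => h2 W ((hinv W).1 hW)⟩
    obtain ⟨W, h3, h4⟩ := h1 F Z a hF
    exact ⟨W, (hinv W).2 h3, h4⟩

end Pool.Agent.Results.MP_8c499d_al.InvariantSubspaces
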