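import Pool.Agent.Lib.MP_8c499d_al.Final

/-!
The orbits of the automorphism group of a pencil of skew-symmetric forms: a complete system of
invariants in terms of the Jordan–Kronecker normal form.
-/

set_option autoImplicit false

open Polynomial

namespace Pool.Agent.Results.MP_8c499d_al.Orbits

open Pool.Agent.Lib.MP_8c499d_al

/-- For a pencil in Jordan–Kronecker normal form, two vectors lie in the same orbit of the
automorphism group if and only if their invariants `multiples`, `annihilators` and `height` agree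
for all sizes and eigenvalues that occur, and if and only if they lie in the same invariant
subspaces. -/
theorem result {V : Type*} [AddCommGroup V] [Module ℂ V] (A B : V →ₗ[ℂ] V →ₗ[ℂ] ℂ)
    {ι κ : Type} [Fintype ι] [Fintype κ] [DecidableEq ι] [DecidableEq κ]
    (k : ι → ℕ) (n : κ → ℕ) (μ : κ → ℂ) (b : Module.Basis (Idx k n) ℂ V)
    (h : IsJK μ b A B ∨ IsJK μ b B A) (v w : V) :
    [∃ φ : V ≃ₗ[ℂ] V, IsAut A B φ ∧ φ v = w,
      (∀ i, multiples b v (k i) = multiples b w (k i)) ∧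
        (∀ i, annihilators b μ v (k i) = annihilators b μ w (k i)) ∧
        ∀ j, height b μ v (μ j) (n j) = height b μ w (μ j) (n j),
      ∀ W, Invariant A B W → (v ∈ W ↔ w ∈ W)].TFAE := by
  have key : ∀ A B : V →ₗ[ℂ] V →ₗ[ℂ] ℂ, IsJK μ b A B →
      ((∃ φ : V ≃ₗ[ℂ] V, IsAut A B φ ∧ φ v = w) ↔
        (∀ i, multiples b v (k i) = multiples b w (k i)) ∧
        (∀ i, annihilators b μ v (k i) = annihilators b μ w (k i)) ∧
        ∀ j, height b μ v (μ j) (n j) = height b μ w (μ j) (n j)) ∧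
      ((∃ φ : V ≃ₗ[ℂ] V, IsAut A B φ ∧ φ v = w) ↔ ∀ W, Invariant A B W → (v ∈ W ↔ w ∈ W)) :=
    fun A B h => ⟨orbit_iff_jk μ b h v w, orbit_iff_invariant μ b h v w⟩
  have hinv : ∀ W, Invariant A B W ↔ Invariant B A W := fun W =>
    forall_congr' fun φ => imp_congr_left isAut_comm
  have hex : (∃ φ : V ≃ₗ[ℂ] V, IsAut A B φ ∧ φ v = w) ↔
      ∃ φ : V ≃ₗ[ℂ] V, IsAut B A φ ∧ φ v = w :=
    exists_congr fun φ => and_congr_left' isAut_comm
  have hboth : ((∃ φ : V ≃ₗ[ℂ] V, IsAut A B φ ∧ φ v = w) ↔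
        (∀ i, multiples b v (k i) = multiples b w (k i)) ∧
        (∀ i, annihilators b μ v (k i) = annihilators b μ w (k i)) ∧
        ∀ j, height b μ v (μ j) (n j) = height b μ w (μ j) (n j)) ∧
      ((∃ φ : V ≃ₗ[ℂ] V, IsAut A B φ ∧ φ v = w) ↔ ∀ W, Invariant A B W → (v ∈ W ↔ w ∈ W)) := by
    rcases h with h | h
    · exact key A B h
    · obtain ⟨h1, h2⟩ := key B A h
      refine ⟨hex.trans h1, hex.trans (h2.trans ?_)⟩
      exact forall_congr' fun W => imp_congr_left (hinv W).symm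
  tfae_have 1 ↔ 2 := hboth.1
  tfae_have 1 ↔ 3 := hboth.2
  tfae_finish

end Pool.Agent.Results.MP_8c499d_al.Orbits
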